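import Pool.Agent.H86.KL.Ext

/-!
# First facts on linkings of south-west and north-east type
-/

set_option autoImplicit false

open Pool.Agent.H30.KL Pool.Agent.H44.KL Pool.Agent.H61.KL

namespace Pool.Agent.H86.KL

variable {n : ℕ} {u v : Equiv.Perm (Fin n)} {i j i' j' : Fin n} {C R : Finset (Fin n)}
  {c₁ r₁ b : Fin n} {s : Fin n → Fin n}

theorem rkC_disj (hC : C ⊆ SWs u i j) (I j' : Fin n) (hi : i ≤ I) : Disjoint (NWs u I j') C := by
  rw [Finset.disjoint_left]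
  intro x hx hx'
  exact absurd (hi.trans (mem_NWs.1 hx).2) (not_le.2 (mem_SWs.1 (hC hx')).2)

theorem rkR_disj (hR : R ⊆ NEs u i j) (I J : Fin n) (hj : J ≤ j) : Disjoint (NWs u I J) R := by
  rw [Finset.disjoint_left]
  intro x hx hx'
  exact absurd ((mem_NWs.1 hx).1.trans hj) (not_le.2 (mem_NEs.1 (hR hx')).1)

/-- the boxes in the column `j'` have room for all the paths, up to the row of the first head -/
theorem STy.cap (hS : STy u v i j C s i' j') (hC : C ⊆ SWs u i j)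
    (hM : Mt u (NWs u i j ∪ C) (NWs u i j ∪ R) s) (hrk : Rk u v i j (NWs u i j ∪ C) s)
    (hc₁ : c₁ ∈ C) (hmin : ∀ c ∈ C, c₁ ≤ c) {I : Fin n} (hiI : i ≤ I) (hI : I ≤ u (s c₁)) :
    rk u I j' + C.card ≤ rk v I j' := by
  classical
  refine le_trans ?_ (hrk I j' hiI hS.hj.le (Or.inr hS.hj.ne))
  rw [← card_NWs, ← Finset.card_union_of_disjoint (rkC_disj hC I j' hiI)]
  apply Finset.card_le_card
  intro x hx
  rw [Finset.mem_filter]
  rcases Finset.mem_union.1 hx with h1 | h1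
  · have h2 := mem_NWs.1 h1
    have h3 : x ∈ NWs u i j ∪ C :=
      Finset.mem_union_left _ (mem_NWs.2 ⟨h2.1.trans hS.hj.le, hiI.trans h2.2⟩)
    exact ⟨h3, h2.1, h2.2.trans (hM.le_val h3)⟩
  · have h2 : x ≤ j' := (mem_SWs.1 (hS.hC h1)).1
    have h3 : x ∈ NWs u i j ∪ C := Finset.mem_union_right _ h1
    exact ⟨h3, h2, hI.trans (hS.low c₁ hc₁ hmin x h3 (hmin x h1) h2)⟩

/-- the vertices of the box right of `c₁`, up to the column `j'`, are not below the first head -/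
theorem STy.low2 (hS : STy u v i j C s i' j')
    (hM : Mt u (NWs u i j ∪ C) (NWs u i j ∪ R) s)
    (hc₁ : c₁ ∈ C) (hmin : ∀ c ∈ C, c₁ ≤ c) {w : Fin n} (hcw : c₁ < w) (hwj : w ≤ j')
    (hwi : i ≤ u w) : u (s c₁) ≤ u w := by
  have hw : w ∈ NWs u i j := mem_NWs.2 ⟨hwj.trans hS.hj.le, hwi⟩
  obtain ⟨a, ha, haw⟩ := hM.surj (Finset.mem_union_left _ hw)
  have haw' : a ≤ w := haw ▸ hM.le ha
  have hca : c₁ ≤ a := by
    rcases Finset.mem_union.1 ha with h1 | h1
    · by_contra h2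
      have h3 := fix_left hmin hM h1 (not_le.1 h2)
      rw [h3] at haw
      rw [haw] at h2
      exact h2 hcw.le
    · exact hmin a h1
  rw [← haw]
  exact hS.low c₁ hc₁ hmin a ha hca (haw'.trans hwj)

theorem STy.left' (hS : STy u v i j C s i' j') (hc₁ : c₁ ∈ C) {w : Fin n}
    (hw : w ∈ NWs u i' j') (hwi : u w < i) : w < c₁ := hS.left w hw hwi c₁ hc₁

/-- the image of a moved vertex is not above all of `R` -/
theorem moved_le (hR : R ⊆ NEs u i j) (hM : Mt u (NWs u i j ∪ C) (NWs u i j ∪ R) s)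
    (hmax : ∀ r ∈ R, u r ≤ u r₁) {a : Fin n} (ha : a ∈ NWs u i j ∪ C) (hne : s a ≠ a) :
    u (s a) ≤ u r₁ := by
  rcases Finset.mem_union.1 (hM.mem ha) with h1 | h1
  · have h2 : s (s a) ≠ s a := fun h3 => hne (hM.inj (Finset.mem_union_left _ h1) ha h3)
    obtain ⟨r, hr, h3⟩ := moved_up hM _ (s a) rfl h1 h2
    exact h3.le.trans (hmax r hr)
  · exact hmax _ h1

/-- the boxes in the row `i'` have room for all the paths, from the column of the last tail on -/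
theorem NTy.cap (hN : NTy u v i j C R s i' j') (hR : R ⊆ NEs u i j)
    (hM : Mt u (NWs u i j ∪ C) (NWs u i j ∪ R) s) (hrk : Rk u v i j (NWs u i j ∪ C) s)
    (hr₁ : r₁ ∈ R) (hmax : ∀ r ∈ R, u r ≤ u r₁) (hb : b ∈ NWs u i j ∪ C) (hbr : s b = r₁)
    {J : Fin n} (hbJ : b ≤ J) (hJ : J ≤ j) : rk u i' J + R.card ≤ rk v i' J := by
  classical
  refine le_trans ?_ (hrk i' J hN.hi.le hJ (Or.inl hN.hi.ne'))
  rw [← card_NWs, ← Finset.card_union_of_disjoint (rkR_disj hR i' J hJ),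
    ← Finset.card_image_of_injOn (s := (NWs u i j ∪ C).filter fun a => a ≤ J ∧ i' ≤ u (s a))
      (f := s) (fun x hx z hz hxz => hM.inj (Finset.mem_filter.1 hx).1
        (Finset.mem_filter.1 hz).1 hxz)]
  apply Finset.card_le_card
  intro x hx
  rw [Finset.mem_image]
  rcases Finset.mem_union.1 hx with h1 | h1
  · have h2 := mem_NWs.1 h1
    obtain ⟨a, ha, hax⟩ := hM.surj (Finset.mem_union_left R
      (mem_NWs.2 ⟨h2.1.trans hJ, hN.hi.le.trans h2.2⟩))
    have h3 : a ≤ x := hax ▸ hM.le ha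
    exact ⟨a, Finset.mem_filter.2 ⟨ha, h3.trans h2.1, by rw [hax]; exact h2.2⟩, hax⟩
  · obtain ⟨a, ha, hax⟩ := hM.surj (Finset.mem_union_right (NWs u i j) h1)
    have h3 : i' ≤ u (s a) := by
      rw [hax]
      exact (mem_NEs.1 (hN.hR h1)).2
    have h4 : a ≤ b := hN.right b hb (by rw [hbr]; exact hr₁) (by rw [hbr]; exact hmax) a ha
      (by rw [hax, hbr]; exact hmax x h1) h3
    exact ⟨a, Finset.mem_filter.2 ⟨ha, h4.trans hbJ, h3⟩, hax⟩

/-- the vertices of the box below `r₁`, from the row `i'` on, are not right of the last tail -/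
theorem NTy.right2 (hN : NTy u v i j C R s i' j') (hR : R ⊆ NEs u i j)
    (hM : Mt u (NWs u i j ∪ C) (NWs u i j ∪ R) s) (hr₁ : r₁ ∈ R)
    (hmax : ∀ r ∈ R, u r ≤ u r₁) (hb : b ∈ NWs u i j ∪ C) (hbr : s b = r₁) {w : Fin n}
    (hw : w ≤ j) (hwi : i' ≤ u w) (hwr : u w < u r₁) : w ≤ b := by
  have hwN : w ∈ NWs u i j := mem_NWs.2 ⟨hw, hN.hi.le.trans hwi⟩
  have hwA : w ∈ NWs u i j ∪ C := Finset.mem_union_left _ hwN
  refine hN.right b hb (by rw [hbr]; exact hr₁) (by rw [hbr]; exact hmax) w hwA ?_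
    (hwi.trans (hM.le_val hwA))
  rw [hbr]
  by_cases h1 : s w = w
  · rw [h1]
    exact hwr.le
  · exact moved_le hR hM hmax hwA h1

end Pool.Agent.H86.KL
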