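import Pool.Agent.H44.KL.Core
import Pool.Agent.H61.KL.CaseB
import Pool.Agent.H61.KL.CaseNE

/-!
# Every irreducible box is uniform (MP_a7460d_ag): definitions

`e = (i,j)`, `A = NWs u i j ∪ C`, `s : A → NWs u i j ∪ R` a linking.  `STy`: the shape of `s` if its leader belongs to a box `(i',j')` of `(C,R)` south-west of
`e`.  `NTy`: the same north-east.  `LowC`, `LowR`: the pairs obtained by moving one element of `C` (of `R`) to the north-west are uniform for `e`.
-/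

set_option autoImplicit false

open Pool.Agent.H30.KL Pool.Agent.H44.KL

namespace Pool.Agent.H86.KL

variable {n : ℕ}

/-- south-west type -/
structure STy (u v : Equiv.Perm (Fin n)) (i j : Fin n) (C : Finset (Fin n)) (s : Fin n → Fin n)
    (i' j' : Fin n) : Prop where
  hi : i' ≤ i
  hj : j' < j
  hC : C ⊆ SWs u i' j'
  hg : rk u i' j' + C.card = rk v i' j' + 1
  left : ∀ w ∈ NWs u i' j', u w < i → ∀ c ∈ C, w < c
  low : ∀ c₁ ∈ C, (∀ c ∈ C, c₁ ≤ c) → ∀ a ∈ NWs u i j ∪ C, c₁ ≤ a → a ≤ j' → u (s c₁) ≤ u (s a)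

/-- north-east type -/
structure NTy (u v : Equiv.Perm (Fin n)) (i j : Fin n) (C R : Finset (Fin n)) (s : Fin n → Fin n)
    (i' j' : Fin n) : Prop where
  hi : i < i'
  hj : j ≤ j'
  hR : R ⊆ NEs u i' j'
  hg : rk u i' j' + R.card = rk v i' j' + 1
  up : ∀ w ∈ NWs u i' j', j < w → ∀ r ∈ R, u r < u w
  right : ∀ b ∈ NWs u i j ∪ C, s b ∈ R → (∀ r ∈ R, u r ≤ u (s b)) → ∀ a ∈ NWs u i j ∪ C,
    u (s a) ≤ u (s b) → i' ≤ u (s a) → a ≤ b

/-- the pairs `(C - c₁ + y, R)` with `y` north-west of `c₁` are uniform for `(i,j)` -/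
def LowC (u v : Equiv.Perm (Fin n)) (i j : Fin n) (C R : Finset (Fin n)) (c₁ : Fin n) : Prop :=
  ∀ y, y < c₁ → u c₁ < u y → u y < i → Irr u v i j (insert y (C.erase c₁)) R →
    ∀ σ σ' : Fin n → Fin n, Link u v i j (insert y (C.erase c₁)) R σ →
      Link u v i j (insert y (C.erase c₁)) R σ' →
      mv (NWs u i j ∪ insert y (C.erase c₁)) σ = mv (NWs u i j ∪ insert y (C.erase c₁)) σ'

/-- the pairs `(C, R - r₁ + x)` with `x` north-west of `r₁` are uniform for `(i,j)` -/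
def LowR (u v : Equiv.Perm (Fin n)) (i j : Fin n) (C R : Finset (Fin n)) (r₁ : Fin n) : Prop :=
  ∀ x, j < x → x < r₁ → u r₁ < u x → Irr u v i j C (insert x (R.erase r₁)) →
    ∀ σ σ' : Fin n → Fin n, Link u v i j C (insert x (R.erase r₁)) σ →
      Link u v i j C (insert x (R.erase r₁)) σ' → mv (NWs u i j ∪ C) σ = mv (NWs u i j ∪ C) σ'

end Pool.Agent.H86.KL
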