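import Pool.Agent.H86.KL.UDefs

/-!
# Extension of a linking: the start `c₁` is replaced by a vertex `y` north-west of it

`Xs`: the vertices between the columns of `y` and `c₁` and between the row `i` and the row of `h₁`; `Fr`: its south-east frontier.  The extension of a linking
with the step `c₁ → h₁` uses the path `y → x₁ → … → xₛ → h₁` through the frontier.
-/

set_option autoImplicit false

open Pool.Agent.H30.KL Pool.Agent.H44.KL Pool.Agent.H61.KL

namespace Pool.Agent.H86.KL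

variable {n : ℕ} {u v : Equiv.Perm (Fin n)} {i j : Fin n} {C R : Finset (Fin n)}
  {y c₁ h₁ : Fin n} {ρ : Fin n → Fin n}

/-- the vertices between `y` and `c₁`, in the rows from `i` on below the row of `h₁` -/
def Xs (u : Equiv.Perm (Fin n)) (i y c₁ h₁ : Fin n) : Finset (Fin n) :=
  Finset.univ.filter fun x => y < x ∧ x < c₁ ∧ i ≤ u x ∧ u x < u h₁

/-- the south-east frontier of `Xs` -/
def Fr (u : Equiv.Perm (Fin n)) (i y c₁ h₁ : Fin n) : Finset (Fin n) :=
  (Xs u i y c₁ h₁).filter fun x => ∀ x' ∈ Xs u i y c₁ h₁, x < x' → u x < u x'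

theorem mem_Xs {x : Fin n} : x ∈ Xs u i y c₁ h₁ ↔ y < x ∧ x < c₁ ∧ i ≤ u x ∧ u x < u h₁ := by
  simp [Xs]

theorem mem_Fr {x : Fin n} : x ∈ Fr u i y c₁ h₁ ↔ x ∈ Xs u i y c₁ h₁ ∧
    ∀ x' ∈ Xs u i y c₁ h₁, x < x' → u x < u x' := by
  rw [Fr, Finset.mem_filter]

theorem exists_nxt (u : Equiv.Perm (Fin n)) (i y c₁ h₁ a : Fin n) :
    ∃ b, (b = h₁ ∨ (b ∈ Xs u i y c₁ h₁ ∧ a < b)) ∧
      ∀ x ∈ Xs u i y c₁ h₁, a < x → u b ≤ u x := by
  classical
  by_cases h : ((Xs u i y c₁ h₁).filter fun x => a < x).Nonempty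
  · obtain ⟨b, hb, hmin⟩ := Finset.exists_min_image _ (fun x => u x) h
    rw [Finset.mem_filter] at hb
    exact ⟨b, Or.inr hb, fun x hx hax => hmin x (Finset.mem_filter.2 ⟨hx, hax⟩)⟩
  · refine ⟨h₁, Or.inl rfl, fun x hx hax => ?_⟩
    exact absurd ⟨x, Finset.mem_filter.2 ⟨hx, hax⟩⟩ h

/-- the next vertex -/
noncomputable def nxt (u : Equiv.Perm (Fin n)) (i y c₁ h₁ a : Fin n) : Fin n :=
  Classical.choose (exists_nxt u i y c₁ h₁ a)

theorem nxt_cases (a : Fin n) : nxt u i y c₁ h₁ a = h₁ ∨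
    (nxt u i y c₁ h₁ a ∈ Xs u i y c₁ h₁ ∧ a < nxt u i y c₁ h₁ a) :=
  (Classical.choose_spec (exists_nxt u i y c₁ h₁ a)).1

theorem nxt_min {a x : Fin n} (hx : x ∈ Xs u i y c₁ h₁) (hax : a < x) :
    u (nxt u i y c₁ h₁ a) ≤ u x :=
  (Classical.choose_spec (exists_nxt u i y c₁ h₁ a)).2 x hx hax

theorem nxt_le (a : Fin n) : u (nxt u i y c₁ h₁ a) ≤ u h₁ := by
  rcases nxt_cases (u := u) (i := i) (y := y) (c₁ := c₁) (h₁ := h₁) a with h | h
  · rw [h]
  · exact (mem_Xs.1 h.1).2.2.2.le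

theorem nxt_mem {a : Fin n} : nxt u i y c₁ h₁ a = h₁ ∨ nxt u i y c₁ h₁ a ∈ Fr u i y c₁ h₁ := by
  rcases nxt_cases (u := u) (i := i) (y := y) (c₁ := c₁) (h₁ := h₁) a with h | h
  · exact Or.inl h
  · refine Or.inr (mem_Fr.2 ⟨h.1, fun x' hx' hlt => ?_⟩)
    refine lt_of_le_of_ne (nxt_min hx' (h.2.trans hlt)) fun h2 => ?_
    exact hlt.ne (u.injective h2)

theorem h₁_notMem_Fr : h₁ ∉ Fr u i y c₁ h₁ := fun h =>
  absurd (mem_Xs.1 (mem_Fr.1 h).1).2.2.2 (lt_irrefl _)

theorem y_notMem_Fr : y ∉ Fr u i y c₁ h₁ := fun h =>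
  absurd (mem_Xs.1 (mem_Fr.1 h).1).1 (lt_irrefl _)

/-- the vertices of the new path without its end -/
def Pf (u : Equiv.Perm (Fin n)) (i y c₁ h₁ : Fin n) : Finset (Fin n) :=
  insert y (Fr u i y c₁ h₁)

theorem mem_Pf {a : Fin n} : a ∈ Pf u i y c₁ h₁ ↔ a = y ∨ a ∈ Fr u i y c₁ h₁ := by
  rw [Pf, Finset.mem_insert]

theorem Pf_lt (hyc : y < c₁) {a : Fin n} (ha : a ∈ Pf u i y c₁ h₁) : a < c₁ := by
  rcases mem_Pf.1 ha with rfl | h
  · exact hyc
  · exact (mem_Xs.1 (mem_Fr.1 h).1).2.1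

theorem Pf_ge {a : Fin n} (ha : a ∈ Pf u i y c₁ h₁) : y ≤ a := by
  rcases mem_Pf.1 ha with rfl | h
  · exact le_rfl
  · exact (mem_Xs.1 (mem_Fr.1 h).1).1.le

theorem Pf_val (hyi : u y < i) {a : Fin n} (ha : a ∈ Pf u i y c₁ h₁) : u y ≤ u a := by
  rcases mem_Pf.1 ha with rfl | h
  · exact le_rfl
  · exact hyi.le.trans (mem_Xs.1 (mem_Fr.1 h).1).2.2.1

/-- two vertices of the new path: the next one is at most the second one -/
theorem nxt_le_of_lt {a b : Fin n} (hb : b ∈ Pf u i y c₁ h₁) (ha : a ∈ Pf u i y c₁ h₁)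
    (hab : a < b) : u (nxt u i y c₁ h₁ a) ≤ u b := by
  rcases mem_Pf.1 hb with rfl | h
  · exact absurd hab (not_lt.2 (Pf_ge ha))
  · exact nxt_min (mem_Fr.1 h).1 hab

theorem nxt_up (hyc : y < c₁) (hch : c₁ < h₁) (hyi : u y < i) (hih : i ≤ u h₁) {a : Fin n}
    (ha : a ∈ Pf u i y c₁ h₁) :
    a < nxt u i y c₁ h₁ a ∧ u a < u (nxt u i y c₁ h₁ a) := by
  have h1 : i ≤ u (nxt u i y c₁ h₁ a) := by
    rcases nxt_cases (u := u) (i := i) (y := y) (c₁ := c₁) (h₁ := h₁) a with h | h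
    · rw [h]
      exact hih
    · exact (mem_Xs.1 h.1).2.2.1
  constructor
  · rcases nxt_cases (u := u) (i := i) (y := y) (c₁ := c₁) (h₁ := h₁) a with h | h
    · rw [h]
      exact (Pf_lt hyc ha).trans hch
    · exact h.2
  · rcases mem_Pf.1 ha with rfl | h2
    · exact hyi.trans_le h1
    · rcases nxt_cases (u := u) (i := i) (y := y) (c₁ := c₁) (h₁ := h₁) a with h | h
      · rw [h]
        exact (mem_Xs.1 (mem_Fr.1 h2).1).2.2.2
      · exact (mem_Fr.1 h2).2 _ h.1 h.2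

theorem nxt_inj (hyc : y < c₁) (hch : c₁ < h₁) (hyi : u y < i) (hih : i ≤ u h₁) {a b : Fin n}
    (ha : a ∈ Pf u i y c₁ h₁) (hb : b ∈ Pf u i y c₁ h₁)
    (h : nxt u i y c₁ h₁ a = nxt u i y c₁ h₁ b) : a = b := by
  rcases lt_trichotomy a b with h1 | h1 | h1
  · have h2 := nxt_le_of_lt hb ha h1
    have h3 := (nxt_up hyc hch hyi hih hb).2
    rw [h] at h2
    exact absurd h3 (not_lt.2 h2)
  · exact h1
  · have h2 := nxt_le_of_lt ha hb h1
    have h3 := (nxt_up hyc hch hyi hih ha).2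
    rw [← h] at h2
    exact absurd h3 (not_lt.2 h2)

theorem nxt_surj (hyc : y < c₁) (hch : c₁ < h₁) (hyi : u y < i) (hih : i ≤ u h₁) {b : Fin n}
    (hb : b = h₁ ∨ b ∈ Fr u i y c₁ h₁) : ∃ a ∈ Pf u i y c₁ h₁, nxt u i y c₁ h₁ a = b := by
  classical
  have h1 : (Pf u i y c₁ h₁).image (nxt u i y c₁ h₁) = insert h₁ (Fr u i y c₁ h₁) := by
    apply Finset.eq_of_subset_of_card_le
    · intro x hx
      obtain ⟨a, -, rfl⟩ := Finset.mem_image.1 hx
      rw [Finset.mem_insert]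
      exact nxt_mem
    · rw [Finset.card_insert_of_notMem h₁_notMem_Fr, Finset.card_image_of_injOn, Pf,
        Finset.card_insert_of_notMem y_notMem_Fr]
      intro a ha b hb hab
      exact nxt_inj hyc hch hyi hih (Finset.mem_coe.1 ha) (Finset.mem_coe.1 hb) hab
  have h2 : b ∈ (Pf u i y c₁ h₁).image (nxt u i y c₁ h₁) := by
    rw [h1, Finset.mem_insert]
    exact hb
  obtain ⟨a, ha, hab⟩ := Finset.mem_image.1 h2
  exact ⟨a, ha, hab⟩

open Classical in
/-- the extension -/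
noncomputable def ext (u : Equiv.Perm (Fin n)) (i y c₁ h₁ : Fin n) (ρ : Fin n → Fin n) :
    Fin n → Fin n := fun a => if a ∈ Pf u i y c₁ h₁ then nxt u i y c₁ h₁ a else ρ a

theorem ext_in {a : Fin n} (ha : a ∈ Pf u i y c₁ h₁) :
    ext u i y c₁ h₁ ρ a = nxt u i y c₁ h₁ a := by
  rw [ext, if_pos ha]

theorem ext_out {a : Fin n} (ha : a ∉ Pf u i y c₁ h₁) : ext u i y c₁ h₁ ρ a = ρ a := by
  rw [ext, if_neg ha]

/-- a matching fixes the vertices left of all the starts -/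
theorem fix_left (hmin : ∀ c ∈ C, c₁ ≤ c) (hM : Mt u (NWs u i j ∪ C) (NWs u i j ∪ R) ρ)
    {a : Fin n} (ha : a ∈ NWs u i j) (hac : a < c₁) : ρ a = a := by
  by_contra hne
  obtain ⟨c, hc, hca⟩ := moved_right hM _ a rfl ha hne
  exact absurd (hca.trans hac) (not_lt.2 (hmin c hc))

theorem Fr_sub (hC : C ⊆ SWs u i j) (hc₁ : c₁ ∈ C) {a : Fin n} (ha : a ∈ Fr u i y c₁ h₁) :
    a ∈ NWs u i j := by
  have h1 := mem_Xs.1 (mem_Fr.1 ha).1
  exact mem_NWs.2 ⟨h1.2.1.le.trans (mem_SWs.1 (hC hc₁)).1, h1.2.2.1⟩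

section

variable (hC : C ⊆ SWs u i j) (hR : R ⊆ NEs u i j) (hc₁ : c₁ ∈ C) (hmin : ∀ c ∈ C, c₁ ≤ c)
  (hyc : y < c₁) (hyi : u y < i)

include hC hc₁ hyc in
theorem sws_insert : insert y (C.erase c₁) ⊆ SWs u i j ↔ u y < i := by
  constructor
  · intro h
    exact (mem_SWs.1 (h (Finset.mem_insert_self _ _))).2
  · intro h x hx
    rcases Finset.mem_insert.1 hx with rfl | h1
    · exact mem_SWs.2 ⟨hyc.le.trans (mem_SWs.1 (hC hc₁)).1, h⟩
    · exact hC (Finset.mem_of_mem_erase h1)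

include hmin hyc in
theorem y_notMem : y ∉ C := fun h => absurd hyc (not_lt.2 (hmin y h))

include hc₁ hmin hyc in
theorem card_insert' : (insert y (C.erase c₁)).card = C.card := by
  rw [Finset.card_insert_of_notMem (fun h => y_notMem hmin hyc (Finset.mem_of_mem_erase h)),
    Finset.card_erase_of_mem hc₁]
  have := Finset.card_pos.2 ⟨c₁, hc₁⟩
  omega

end

/-- the property of `y`: every box of defect zero in question has a vertex of the box `(i,·)` south-east of it -/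
def Cov (u v : Equiv.Perm (Fin n)) (i y c₁ h₁ : Fin n) : Prop :=
  ∀ i₀ j₀ : Fin n, rk v i₀ j₀ = rk u i₀ j₀ → y ≤ j₀ → j₀ < c₁ → u y < i₀ → i₀ ≤ u h₁ →
    ∃ x, j₀ < x ∧ x < c₁ ∧ i ≤ u x ∧ u x < i₀

/-- no step of the new path goes over a box of defect zero left of `c₁` -/
theorem Cov.no_step (h : Cov u v i y c₁ h₁) (hyi : u y < i) {a i₀ j₀ : Fin n}
    (ha : a ∈ Pf u i y c₁ h₁) (hz : rk v i₀ j₀ = rk u i₀ j₀) (haj : a ≤ j₀) (hjc : j₀ < c₁)
    (hai : u a < i₀) (hin : i₀ ≤ u (nxt u i y c₁ h₁ a)) : False := by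
  obtain ⟨x, hx1, hx2, hx3, hx4⟩ := h i₀ j₀ hz ((Pf_ge ha).trans haj) hjc
    ((Pf_val hyi ha).trans_lt hai) (hin.trans (nxt_le a))
  have hx : x ∈ Xs u i y c₁ h₁ := mem_Xs.2 ⟨(Pf_ge ha).trans_lt (haj.trans_lt hx1), hx2, hx3,
    hx4.trans_le (hin.trans (nxt_le a))⟩
  exact absurd (hin.trans (nxt_min hx (haj.trans_lt hx1))) (not_le.2 hx4)

section

variable (hC : C ⊆ SWs u i j) (hR : R ⊆ NEs u i j) (hc₁ : c₁ ∈ C) (hmin : ∀ c ∈ C, c₁ ≤ c)
  (hyc : y < c₁) (hyi : u y < i) (hM : Mt u (NWs u i j ∪ C) (NWs u i j ∪ R) ρ)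
  (hρ : ρ c₁ = h₁)

include hC hmin hyc in
theorem Pf_notMem_C {a : Fin n} (ha : a ∈ Pf u i y c₁ h₁) : a ∉ C := fun h =>
  absurd (Pf_lt hyc ha) (not_lt.2 (hmin a h))

include hC hR hc₁ hM hρ in
theorem h₁_facts : c₁ < h₁ ∧ i ≤ u h₁ := by
  have h1 : c₁ ∈ NWs u i j ∪ C := Finset.mem_union_right _ hc₁
  have h2 : ρ c₁ ≠ c₁ := by
    intro h3
    have h4 := hM.mem h1
    rw [h3] at h4
    exact start_notMem hC hR hc₁ h4
  have h3 := hM.up c₁ h1 h2
  rw [hρ] at h3
  refine ⟨h3.1, ?_⟩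
  rw [← hρ]
  exact mem_B_ge hR (hM.mem h1)

include hC hR hc₁ hmin hyc hyi hM hρ

/-- the extension is a matching -/
theorem ext_mt : Mt u (NWs u i j ∪ insert y (C.erase c₁)) (NWs u i j ∪ R)
    (ext u i y c₁ h₁ ρ) := by
  classical
  obtain ⟨hch, hih⟩ := h₁_facts hC hR hc₁ hM hρ
  have hyC := y_notMem hmin hyc (C := C)
  have hc₁N : c₁ ∉ NWs u i j := fun h =>
    absurd (mem_NWs.1 h).2 (not_le.2 (mem_SWs.1 (hC hc₁)).2)
  have hyN : y ∉ NWs u i j := fun h => absurd (mem_NWs.1 h).2 (not_le.2 hyi)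
  apply Mt.of_surj
  · have h1 := hM.card
    have h2 : (NWs u i j ∪ insert y (C.erase c₁)).card = (NWs u i j ∪ C).card := by
      rw [Finset.card_union_of_disjoint, Finset.card_union_of_disjoint,
        card_insert' hc₁ hmin hyc]
      · rw [Finset.disjoint_left]
        intro x hx hx'
        exact absurd (mem_NWs.1 hx).2 (not_le.2 (mem_SWs.1 (hC hx')).2)
      · rw [Finset.disjoint_left]
        intro x hx hx'
        rcases Finset.mem_insert.1 hx' with rfl | h3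
        · exact hyN hx
        · exact absurd (mem_NWs.1 hx).2
            (not_le.2 (mem_SWs.1 (hC (Finset.mem_of_mem_erase h3))).2)
    rw [h2, h1]
  · intro b hb
    by_cases h1 : b = h₁ ∨ b ∈ Fr u i y c₁ h₁
    · obtain ⟨a, ha, hab⟩ := nxt_surj hyc hch hyi hih h1
      refine ⟨a, ?_, by rw [ext_in ha, hab]⟩
      rcases mem_Pf.1 ha with rfl | h2
      · exact Finset.mem_union_right _ (Finset.mem_insert_self _ _)
      · exact Finset.mem_union_left _ (Fr_sub hC hc₁ h2)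
    · push Not at h1
      obtain ⟨a, ha, hab⟩ := hM.surj hb
      have hac : a ≠ c₁ := by
        rintro rfl
        exact h1.1 (hab.symm.trans hρ)
      have haP : a ∉ Pf u i y c₁ h₁ := by
        intro h2
        rcases mem_Pf.1 h2 with rfl | h3
        · rcases Finset.mem_union.1 ha with h4 | h4
          · exact hyN h4
          · exact hyC h4
        · have h4 := fix_left hmin hM (Fr_sub hC hc₁ h3) (mem_Xs.1 (mem_Fr.1 h3).1).2.1
          rw [h4] at hab
          exact h1.2 (hab ▸ h3)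
      refine ⟨a, ?_, by rw [ext_out haP, hab]⟩
      rcases Finset.mem_union.1 ha with h2 | h2
      · exact Finset.mem_union_left _ h2
      · exact Finset.mem_union_right _
          (Finset.mem_insert_of_mem (Finset.mem_erase.2 ⟨hac, h2⟩))
  · intro a ha hne
    by_cases haP : a ∈ Pf u i y c₁ h₁
    · rw [ext_in haP]
      exact nxt_up hyc hch hyi hih haP
    · rw [ext_out haP] at hne ⊢
      refine hM.up a ?_ hne
      rcases Finset.mem_union.1 ha with h2 | h2
      · exact Finset.mem_union_left _ h2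
      · rcases Finset.mem_insert.1 h2 with rfl | h3
        · exact absurd (mem_Pf.2 (Or.inl rfl)) haP
        · exact Finset.mem_union_right _ (Finset.mem_of_mem_erase h3)

/-- the rank conditions of the extension -/
theorem ext_rk (huv : BruhatLE u v) (hcov : Cov u v i y c₁ h₁) (hrk : Rk u v i j (NWs u i j ∪ C) ρ) :
    Rk u v i j (NWs u i j ∪ insert y (C.erase c₁)) (ext u i y c₁ h₁ ρ) := by
  classical
  obtain ⟨hch, hih⟩ := h₁_facts hC hR hc₁ hM hρ
  have hM' := ext_mt hC hR hc₁ hmin hyc hyi hM hρ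
  intro i₀ j₀ hi₀ hj₀ hne
  by_cases hjc : j₀ < c₁
  · -- left of `c₁`
    have h1 : ∀ a ∈ (NWs u i j ∪ insert y (C.erase c₁)).filter
        (fun a => a ≤ j₀ ∧ i₀ ≤ u (ext u i y c₁ h₁ ρ a)),
        a ∈ NWs u i₀ j₀ ∨ (a ∈ Pf u i y c₁ h₁ ∧ u a < i₀ ∧ i₀ ≤ u (nxt u i y c₁ h₁ a)) := by
      intro a ha
      obtain ⟨ha, haj, hai⟩ := Finset.mem_filter.1 ha
      by_cases h2 : i₀ ≤ u a
      · exact Or.inl (mem_NWs.2 ⟨haj, h2⟩)
      · right
        by_cases haP : a ∈ Pf u i y c₁ h₁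
        · rw [ext_in haP] at hai
          exact ⟨haP, not_le.1 h2, hai⟩
        · exfalso
          rw [ext_out haP] at hai
          rcases Finset.mem_union.1 ha with h3 | h3
          · rw [fix_left hmin hM h3 (haj.trans_lt hjc)] at hai
            exact h2 hai
          · rcases Finset.mem_insert.1 h3 with rfl | h4
            · exact haP (mem_Pf.2 (Or.inl rfl))
            · exact absurd (haj.trans_lt hjc) (not_lt.2 (hmin a (Finset.mem_of_mem_erase h4)))
    by_cases h2 : ∃ a, a ∈ Pf u i y c₁ h₁ ∧ a ≤ j₀ ∧ u a < i₀ ∧ i₀ ≤ u (nxt u i y c₁ h₁ a)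
    · obtain ⟨a, ha, haj, hai, han⟩ := h2
      have h3 : (NWs u i j ∪ insert y (C.erase c₁)).filter
          (fun a => a ≤ j₀ ∧ i₀ ≤ u (ext u i y c₁ h₁ ρ a)) ⊆ insert a (NWs u i₀ j₀) := by
        intro b hb
        rcases h1 b hb with h4 | ⟨h4, h5, h6⟩
        · exact Finset.mem_insert_of_mem h4
        · rw [Finset.mem_insert]
          left
          rcases lt_trichotomy a b with h7 | h7 | h7
          · exact absurd (han.trans (nxt_le_of_lt h4 ha h7)) (not_le.2 h5)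
          · exact h7.symm
          · exact absurd (h6.trans (nxt_le_of_lt ha h4 h7)) (not_le.2 hai)
      have h4 := (Finset.card_le_card h3).trans (Finset.card_insert_le _ _)
      rw [card_NWs] at h4
      have h5 : rk v i₀ j₀ ≠ rk u i₀ j₀ := fun h6 =>
        hcov.no_step hyi ha h6 haj hjc hai han
      have h6 := huv i₀ j₀
      omega
    · push Not at h2
      have h3 : (NWs u i j ∪ insert y (C.erase c₁)).filter
          (fun a => a ≤ j₀ ∧ i₀ ≤ u (ext u i y c₁ h₁ ρ a)) ⊆ NWs u i₀ j₀ := by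
        intro b hb
        rcases h1 b hb with h4 | ⟨h4, h5, h6⟩
        · exact h4
        · exact absurd h6 (not_le.2 (h2 b h4 (Finset.mem_filter.1 hb).2.1 h5))
      have h4 := Finset.card_le_card h3
      rw [card_NWs] at h4
      exact h4.trans (huv i₀ j₀)
  · -- right of `c₁`
    refine le_trans ?_ (hrk i₀ j₀ hi₀ hj₀ hne)
    rw [not_lt] at hjc
    rw [← Finset.card_image_of_injOn
      (s := (NWs u i j ∪ insert y (C.erase c₁)).filter
        (fun a => a ≤ j₀ ∧ i₀ ≤ u (ext u i y c₁ h₁ ρ a)))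
      (f := ext u i y c₁ h₁ ρ) (fun x hx z hz hxz => hM'.inj (Finset.mem_filter.1 hx).1
        (Finset.mem_filter.1 hz).1 hxz),
      ← Finset.card_image_of_injOn
      (s := (NWs u i j ∪ C).filter (fun a => a ≤ j₀ ∧ i₀ ≤ u (ρ a)))
      (f := ρ) (fun x hx z hz hxz => hM.inj (Finset.mem_filter.1 hx).1
        (Finset.mem_filter.1 hz).1 hxz)]
    apply Finset.card_le_card
    intro b hb
    obtain ⟨a, ha, hab⟩ := Finset.mem_image.1 hb
    obtain ⟨ha, haj, hai⟩ := Finset.mem_filter.1 ha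
    rw [hab] at hai
    rw [Finset.mem_image]
    by_cases haP : a ∈ Pf u i y c₁ h₁
    · rw [ext_in haP] at hab
      rcases nxt_mem (u := u) (i := i) (y := y) (c₁ := c₁) (h₁ := h₁) (a := a) with h1 | h1
      · refine ⟨c₁, Finset.mem_filter.2 ⟨Finset.mem_union_right _ hc₁, hjc, ?_⟩, ?_⟩
        · rw [hρ, ← h1, hab]
          exact hai
        · rw [hρ, ← h1, hab]
      · rw [hab] at h1
        have h2 := Fr_sub hC hc₁ h1
        have h3 := (mem_Xs.1 (mem_Fr.1 h1).1).2.1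
        have h4 := fix_left hmin hM h2 h3
        exact ⟨b, Finset.mem_filter.2 ⟨Finset.mem_union_left _ h2, h3.le.trans hjc,
          by rw [h4]; exact hai⟩, h4⟩
    · rw [ext_out haP] at hab
      refine ⟨a, Finset.mem_filter.2 ⟨?_, haj, by rw [hab]; exact hai⟩, hab⟩
      rcases Finset.mem_union.1 ha with h2 | h2
      · exact Finset.mem_union_left _ h2
      · rcases Finset.mem_insert.1 h2 with rfl | h3
        · exact absurd (mem_Pf.2 (Or.inl rfl)) haP
        · exact Finset.mem_union_right _ (Finset.mem_of_mem_erase h3)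

/-- the number of moved vertices of the extension -/
theorem ext_mv : mv (NWs u i j ∪ insert y (C.erase c₁)) (ext u i y c₁ h₁ ρ) =
    mv (NWs u i j ∪ C) ρ + (Fr u i y c₁ h₁).card := by
  classical
  obtain ⟨hch, hih⟩ := h₁_facts hC hR hc₁ hM hρ
  have hyC := y_notMem hmin hyc (C := C)
  have hyN : y ∉ NWs u i j := fun h => absurd (mem_NWs.1 h).2 (not_le.2 hyi)
  have hc₁m : c₁ ∈ (NWs u i j ∪ C).filter fun a => ρ a ≠ a :=
    Finset.mem_filter.2 ⟨Finset.mem_union_right _ hc₁, by rw [hρ]; exact hch.ne'⟩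
  have h1 : (NWs u i j ∪ insert y (C.erase c₁)).filter
      (fun a => ext u i y c₁ h₁ ρ a ≠ a) =
      ((NWs u i j ∪ C).filter fun a => ρ a ≠ a).erase c₁ ∪ Pf u i y c₁ h₁ := by
    ext a
    rw [Finset.mem_filter, Finset.mem_union (s := Finset.erase _ _), Finset.mem_erase,
      Finset.mem_filter]
    by_cases haP : a ∈ Pf u i y c₁ h₁
    · constructor
      · intro _
        exact Or.inr haP
      · intro _
        refine ⟨?_, ?_⟩
        · rcases mem_Pf.1 haP with rfl | h2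
          · exact Finset.mem_union_right _ (Finset.mem_insert_self _ _)
          · exact Finset.mem_union_left _ (Fr_sub hC hc₁ h2)
        · rw [ext_in haP]
          exact (nxt_up hyc hch hyi hih haP).1.ne'
    · rw [ext_out haP]
      constructor
      · rintro ⟨h2, h3⟩
        left
        rcases Finset.mem_union.1 h2 with h4 | h4
        · refine ⟨?_, Finset.mem_union_left _ h4, h3⟩
          rintro rfl
          exact absurd (mem_NWs.1 h4).2 (not_le.2 (mem_SWs.1 (hC hc₁)).2)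
        · rcases Finset.mem_insert.1 h4 with rfl | h5
          · exact absurd (mem_Pf.2 (Or.inl rfl)) haP
          · exact ⟨Finset.ne_of_mem_erase h5,
              Finset.mem_union_right _ (Finset.mem_of_mem_erase h5), h3⟩
      · rintro (⟨h2, h3, h4⟩ | h2)
        · refine ⟨?_, h4⟩
          rcases Finset.mem_union.1 h3 with h5 | h5
          · exact Finset.mem_union_left _ h5
          · exact Finset.mem_union_right _
              (Finset.mem_insert_of_mem (Finset.mem_erase.2 ⟨h2, h5⟩))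
        · exact absurd h2 haP
  have h2 : Disjoint (((NWs u i j ∪ C).filter fun a => ρ a ≠ a).erase c₁)
      (Pf u i y c₁ h₁) := by
    rw [Finset.disjoint_left]
    intro a ha ha'
    obtain ⟨h3, h4⟩ := Finset.mem_erase.1 ha
    obtain ⟨h5, h6⟩ := Finset.mem_filter.1 h4
    rcases mem_Pf.1 ha' with rfl | h7
    · rcases Finset.mem_union.1 h5 with h8 | h8
      · exact hyN h8
      · exact hyC h8
    · exact h6 (fix_left hmin hM (Fr_sub hC hc₁ h7) (mem_Xs.1 (mem_Fr.1 h7).1).2.1)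
  unfold mv
  rw [h1, Finset.card_union_of_disjoint h2, Finset.card_erase_of_mem hc₁m, Pf,
    Finset.card_insert_of_notMem y_notMem_Fr]
  have h3 := Finset.card_pos.2 ⟨c₁, hc₁m⟩
  omega

end

/-- the extension of a linking -/
theorem ext_link (hC : C ⊆ SWs u i j) (hR : R ⊆ NEs u i j) (hc₁ : c₁ ∈ C)
    (hmin : ∀ c ∈ C, c₁ ≤ c) (hyc : y < c₁) (hyi : u y < i) (hcy : u c₁ < u y)
    (huv : BruhatLE u v) (hcov : Cov u v i y c₁ h₁) (hL : Link u v i j C R ρ) (hρ : ρ c₁ = h₁)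
    (hnd : ¬ (C = {c₁} ∧ R = {h₁})) :
    Link u v i j (insert y (C.erase c₁)) R (ext u i y c₁ h₁ ρ) := by
  classical
  have hM := mt_of_link hL
  obtain ⟨hch, hih⟩ := h₁_facts hC hR hc₁ hM hρ
  have hM' := ext_mt hC hR hc₁ hmin hyc hyi hM hρ
  refine ⟨hM'.bij, ?_, ext_rk hC hR hc₁ hmin hyc hyi hM hρ huv hcov (rk_of_link hL)⟩
  intro a ha hne
  refine ⟨(hM'.up a ha hne).1, (hM'.up a ha hne).2, Or.inl ?_⟩
  have hal : BruhatLE (u * Equiv.swap c₁ h₁) v := by
    have h1 : c₁ ∈ NWs u i j ∪ C := Finset.mem_union_right _ hc₁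
    have h2 := (hL.up c₁ h1 (by rw [hρ]; exact hch.ne')).2.2
    rw [hρ] at h2
    exact h2.resolve_right hnd
  by_cases haP : a ∈ Pf u i y c₁ h₁
  · rw [ext_in haP]
    obtain ⟨hlt, hul⟩ := nxt_up hyc hch hyi hih haP
    by_contra hnot
    obtain ⟨i₀, j₀, -, h3, h4, h5, h6, h7⟩ := sep_of_not_le huv hlt hul hnot
    by_cases hjc : j₀ < c₁
    · exact hcov.no_step hyi haP h7.symm h3 hjc h5 h6
    · rw [not_lt] at hjc
      have h8 : nxt u i y c₁ h₁ a = h₁ := by
        rcases nxt_cases (u := u) (i := i) (y := y) (c₁ := c₁) (h₁ := h₁) a with h9 | h9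
        · exact h9
        · exact absurd (hjc.trans_lt h4) (not_lt.2 (mem_Xs.1 h9.1).2.1.le)
      rw [h8] at h4 h6
      have hul1 : u c₁ < u h₁ := hcy.trans_le ((Pf_val hyi haP).trans (h5.le.trans h6))
      exact not_alive hch hul1 h7.symm hjc h4 (hcy.trans_le ((Pf_val hyi haP).trans h5.le)) h6 hal
  · rw [ext_out haP] at hne ⊢
    have h1 : a ∈ NWs u i j ∪ C ∧ a ≠ c₁ := by
      rcases Finset.mem_union.1 ha with h2 | h2
      · refine ⟨Finset.mem_union_left _ h2, ?_⟩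
        rintro rfl
        exact absurd (mem_NWs.1 h2).2 (not_le.2 (mem_SWs.1 (hC hc₁)).2)
      · rcases Finset.mem_insert.1 h2 with rfl | h3
        · exact absurd (mem_Pf.2 (Or.inl rfl)) haP
        · exact ⟨Finset.mem_union_right _ (Finset.mem_of_mem_erase h3),
            Finset.ne_of_mem_erase h3⟩
    refine (hL.up a h1.1 hne).2.2.resolve_right ?_
    rintro ⟨h2, -⟩
    rw [h2] at hc₁
    exact h1.2 (Finset.mem_singleton.1 hc₁).symm

/-- the pair `(C - c₁ + y, R)` is irreducible -/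
theorem irr_insert (hc₁ : c₁ ∈ C) (hmin : ∀ c ∈ C, c₁ ≤ c) (hyc : y < c₁) (hyi : u y < i)
    (hcy : u c₁ < u y) (hih : i ≤ u h₁) (huv : BruhatLE u v) (hcov : Cov u v i y c₁ h₁)
    (hI : Irr u v i j C R) : Irr u v i j (insert y (C.erase c₁)) R := by
  classical
  have hyC := y_notMem hmin hyc (C := C)
  refine ⟨fun i₂ j₂ hi₂ hj₂ hne => ?_, hI.2⟩
  rw [card_insert' hc₁ hmin hyc]
  have hsub : (insert y (C.erase c₁)).filter (fun c => c ≤ j₂ ∧ u c < i₂) ⊆
      insert y ((C.filter fun c => c ≤ j₂ ∧ u c < i₂).erase c₁) := by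
    intro x hx
    obtain ⟨hx, h1⟩ := Finset.mem_filter.1 hx
    rcases Finset.mem_insert.1 hx with rfl | h2
    · exact Finset.mem_insert_self _ _
    · exact Finset.mem_insert_of_mem (Finset.mem_erase.2 ⟨Finset.ne_of_mem_erase h2,
        Finset.mem_filter.2 ⟨Finset.mem_of_mem_erase h2, h1⟩⟩)
  by_cases hy : y ≤ j₂ ∧ u y < i₂
  · by_cases hcj : c₁ ≤ j₂
    · have hc₁f : c₁ ∈ C.filter fun c => c ≤ j₂ ∧ u c < i₂ :=
        Finset.mem_filter.2 ⟨hc₁, hcj, hcy.trans hy.2⟩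
      have h1 : ((insert y (C.erase c₁)).filter fun c => c ≤ j₂ ∧ u c < i₂).card ≤
          (C.filter fun c => c ≤ j₂ ∧ u c < i₂).card := by
        have h2 := (Finset.card_le_card hsub).trans (Finset.card_insert_le _ _)
        rw [Finset.card_erase_of_mem hc₁f] at h2
        have h3 := Finset.card_pos.2 ⟨c₁, hc₁f⟩
        omega
      rcases hI.1 i₂ j₂ hi₂ hj₂ hne with h3 | ⟨h3, h4⟩
      · left
        omega
      · right
        refine ⟨?_, h4⟩
        intro x hx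
        rcases Finset.mem_insert.1 hx with rfl | h5
        · exact mem_SWs.2 hy
        · exact h3 (Finset.mem_of_mem_erase h5)
    · rw [not_le] at hcj
      left
      have h1 : (C.filter fun c => c ≤ j₂ ∧ u c < i₂) = ∅ := by
        apply Finset.filter_false_of_mem
        rintro c hc ⟨h2, -⟩
        exact absurd (h2.trans_lt hcj) (not_lt.2 (hmin c hc))
      have h2 := (Finset.card_le_card hsub).trans (Finset.card_insert_le _ _)
      rw [h1, Finset.erase_empty, Finset.card_empty] at h2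
      have h3 : rk v i₂ j₂ ≠ rk u i₂ j₂ := by
        intro h4
        obtain ⟨x, -, -, h5, h6⟩ := hcov i₂ j₂ h4 hy.1 hcj hy.2 (hi₂.trans hih)
        exact absurd (h6.trans_le hi₂) (not_lt.2 h5)
      have h4 := huv i₂ j₂
      omega
  · have h0 : (insert y (C.erase c₁)).filter (fun c => c ≤ j₂ ∧ u c < i₂) ⊆
        (C.filter fun c => c ≤ j₂ ∧ u c < i₂).erase c₁ := by
      intro x hx
      rcases Finset.mem_insert.1 (hsub hx) with rfl | h1
      · exact absurd (Finset.mem_filter.1 hx).2 hy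
      · exact h1
    have h1 := Finset.card_le_card h0
    left
    rcases hI.1 i₂ j₂ hi₂ hj₂ hne with h3 | ⟨h3, h4⟩
    · have h5 := Finset.card_erase_le (s := C.filter fun c => c ≤ j₂ ∧ u c < i₂) (a := c₁)
      omega
    · have h5 : (C.filter fun c => c ≤ j₂ ∧ u c < i₂).card ≤ C.card :=
        Finset.card_filter_le _ _
      have hc₁f : c₁ ∈ C.filter fun c => c ≤ j₂ ∧ u c < i₂ :=
        Finset.mem_filter.2 ⟨hc₁, mem_SWs.1 (h3 hc₁)⟩
      rw [Finset.card_erase_of_mem hc₁f] at h1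
      have h6 := Finset.card_pos.2 ⟨c₁, hc₁f⟩
      omega

/-- a linking from `{c₁}` to `{h₁}` with the step `c₁ → h₁` has no other step -/
theorem mv_direct (hC : C ⊆ SWs u i j) (hR : R ⊆ NEs u i j) (hL : Link u v i j C R ρ)
    (hCs : C = {c₁}) (hRs : R = {h₁}) (hρ : ρ c₁ = h₁) : mv (NWs u i j ∪ C) ρ = 1 := by
  classical
  have hM := mt_of_link hL
  have hc₁ : c₁ ∈ C := by rw [hCs]; exact Finset.mem_singleton_self _
  obtain ⟨hch, hih⟩ := h₁_facts hC hR hc₁ hM hρ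
  unfold mv
  rw [Finset.card_eq_one]
  refine ⟨c₁, ?_⟩
  ext a
  rw [Finset.mem_filter, Finset.mem_singleton]
  constructor
  · rintro ⟨ha, hne⟩
    by_contra hac
    -- the path through `a` ends in `R`
    obtain ⟨c, hcA, hcB, hca⟩ := pth_cover hM a ha hne
    have hcC : c ∈ C := by
      rcases Finset.mem_union.1 hcA with h1 | h1
      · exact absurd (Finset.mem_union_left _ h1) hcB
      · exact h1
    rw [hCs] at hcC
    have hcc := Finset.mem_singleton.1 hcC
    rw [hcc] at hca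
    have h1 : c₁ < a := lt_of_le_of_ne (ge_pth hM hca) (Ne.symm hac)
    have h2 := (pth_next hM (self_mem hM c₁) hca h1).1
    rw [hρ] at h2
    have h3 : h₁ ∈ R := by rw [hRs]; exact Finset.mem_singleton_self _
    exact absurd ((mem_NEs.1 (hR h3)).1.trans_le h2) (not_lt.2 (mem_A_le hC ha))
  · rintro rfl
    exact ⟨Finset.mem_union_right _ hc₁, by rw [hρ]; exact hch.ne'⟩

/-- all the members with the step `c₁ → h₁` have the same number of moved vertices -/
theorem same_first_of_cov (huv : BruhatLE u v) (hC : C ⊆ SWs u i j) (hR : R ⊆ NEs u i j)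
    (hI : Irr u v i j C R) (hc₁ : c₁ ∈ C) (hmin : ∀ c ∈ C, c₁ ≤ c) (hyc : y < c₁)
    (hyi : u y < i) (hcy : u c₁ < u y) (hcov : Cov u v i y c₁ h₁) (hlow : LowC u v i j C R c₁)
    {ρ ρ' : Fin n → Fin n} (hL : Link u v i j C R ρ) (hL' : Link u v i j C R ρ')
    (e : ρ c₁ = h₁) (e' : ρ' c₁ = h₁) : mv (NWs u i j ∪ C) ρ = mv (NWs u i j ∪ C) ρ' := by
  by_cases hnd : C = {c₁} ∧ R = {h₁}
  · rw [mv_direct hC hR hL hnd.1 hnd.2 e, mv_direct hC hR hL' hnd.1 hnd.2 e']
  · have hM := mt_of_link hL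
    have hM' := mt_of_link hL'
    have hih := (h₁_facts hC hR hc₁ hM e).2
    have h1 := hlow y hyc hcy hyi (irr_insert hc₁ hmin hyc hyi hcy hih huv hcov hI) _ _
      (ext_link hC hR hc₁ hmin hyc hyi hcy huv hcov hL e hnd)
      (ext_link hC hR hc₁ hmin hyc hyi hcy huv hcov hL' e' hnd)
    rw [ext_mv hC hR hc₁ hmin hyc hyi hM e, ext_mv hC hR hc₁ hmin hyc hyi hM' e'] at h1
    omega

end Pool.Agent.H86.KL
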