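import Pool.Agent.H86.KL.UFacts

/-!
# All the members with the same first step have the same number of moved vertices
-/

set_option autoImplicit false

open Pool.Agent.H30.KL Pool.Agent.H44.KL Pool.Agent.H61.KL

namespace Pool.Agent.H86.KL

variable {n : ℕ} {u v : Equiv.Perm (Fin n)} {i j i' j' : Fin n} {C R : Finset (Fin n)}
  {c₁ h₁ : Fin n} {s : Fin n → Fin n}

/-- number of the columns `< k` whose value is at least `t` -/
def rN (w : Equiv.Perm (Fin n)) (t k : ℕ) : ℕ :=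
  (Finset.univ.filter fun c : Fin n => (c : ℕ) < k ∧ t ≤ (w c : ℕ)).card

theorem rN_eq (w : Equiv.Perm (Fin n)) (i j : Fin n) : rN w i ((j : ℕ) + 1) = rk w i j := by
  unfold rN rk
  congr 1
  ext c
  simp only [Finset.mem_filter, Finset.mem_univ, true_and, Fin.le_def]
  omega

theorem rN_zero (w : Equiv.Perm (Fin n)) (t : ℕ) : rN w t 0 = 0 := by
  unfold rN
  rw [Finset.card_eq_zero]
  apply Finset.filter_false_of_mem
  rintro c - ⟨h, -⟩
  omega

/-- one row -/
theorem rN_row (w : Equiv.Perm (Fin n)) (t k : ℕ) : rN w t k =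
    rN w (t + 1) k + (Finset.univ.filter fun c : Fin n => (c : ℕ) < k ∧ (w c : ℕ) = t).card := by
  classical
  unfold rN
  rw [← Finset.card_union_of_disjoint]
  · congr 1
    ext c
    simp only [Finset.mem_filter, Finset.mem_univ, true_and, Finset.mem_union]
    omega
  · rw [Finset.disjoint_left]
    intro c hc hc'
    simp only [Finset.mem_filter, Finset.mem_univ, true_and] at hc hc'
    omega

/-- a row without a vertex of `u` in the columns `k .. K - 1` -/
theorem row_step {u v : Equiv.Perm (Fin n)} {t k K m : ℕ} (hk : k ≤ K)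
    (hno : ∀ c : Fin n, k ≤ (c : ℕ) → (c : ℕ) < K → (u c : ℕ) ≠ t)
    (h : m + rN u (t + 1) K + rN v (t + 1) k ≤ rN v (t + 1) K + rN u (t + 1) k) :
    m + rN u t K + rN v t k ≤ rN v t K + rN u t k := by
  classical
  rw [rN_row u t K, rN_row v t k, rN_row v t K, rN_row u t k]
  have h1 : (Finset.univ.filter fun c : Fin n => (c : ℕ) < K ∧ (u c : ℕ) = t).card ≤
      (Finset.univ.filter fun c : Fin n => (c : ℕ) < k ∧ (u c : ℕ) = t).card := by
    apply Finset.card_le_card
    intro c hc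
    simp only [Finset.mem_filter, Finset.mem_univ, true_and] at hc ⊢
    refine ⟨?_, hc.2⟩
    by_contra h2
    exact hno c (by omega) hc.1 hc.2
  have h2 : (Finset.univ.filter fun c : Fin n => (c : ℕ) < k ∧ (v c : ℕ) = t).card ≤
      (Finset.univ.filter fun c : Fin n => (c : ℕ) < K ∧ (v c : ℕ) = t).card := by
    apply Finset.card_le_card
    intro c hc
    simp only [Finset.mem_filter, Finset.mem_univ, true_and] at hc ⊢
    exact ⟨by omega, hc.2⟩
  omega

open Classical in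
/-- the bad boxes of defect zero -/
noncomputable def Zz (u v : Equiv.Perm (Fin n)) (i i' c₁ h₁ : Fin n) : Finset (Fin n × Fin n) :=
  Finset.univ.filter fun z => rk v z.1 z.2 = rk u z.1 z.2 ∧ z.2 < c₁ ∧ i' < z.1 ∧ z.1 ≤ u h₁ ∧
    ∀ x, z.2 < x → x < c₁ → i ≤ u x → z.1 ≤ u x

theorem mem_Zz {z : Fin n × Fin n} : z ∈ Zz u v i i' c₁ h₁ ↔ rk v z.1 z.2 = rk u z.1 z.2 ∧
    z.2 < c₁ ∧ i' < z.1 ∧ z.1 ≤ u h₁ ∧ ∀ x, z.2 < x → x < c₁ → i ≤ u x → z.1 ≤ u x := by
  rw [Zz, Finset.mem_filter]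
  exact ⟨fun h => h.2, fun h => ⟨Finset.mem_univ _, h⟩⟩

open Classical in
/-- the width of the union of the bad regions in the row `t` -/
noncomputable def Jz (u v : Equiv.Perm (Fin n)) (i i' c₁ h₁ : Fin n) (t : ℕ) : ℕ :=
  ((Zz u v i i' c₁ h₁).filter fun z => t < (z.1 : ℕ)).sup fun z => (z.2 : ℕ) + 1

theorem le_Jz {z : Fin n × Fin n} {t : ℕ} (hz : z ∈ Zz u v i i' c₁ h₁) (ht : t < (z.1 : ℕ)) :
    (z.2 : ℕ) + 1 ≤ Jz u v i i' c₁ h₁ t := by
  classical
  unfold Jz
  exact Finset.le_sup (f := fun z : Fin n × Fin n => (z.2 : ℕ) + 1)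
    (Finset.mem_filter.2 ⟨hz, ht⟩)

theorem Jz_cases (t : ℕ) : Jz u v i i' c₁ h₁ t = 0 ∨
    ∃ z ∈ Zz u v i i' c₁ h₁, t < (z.1 : ℕ) ∧ Jz u v i i' c₁ h₁ t = (z.2 : ℕ) + 1 := by
  classical
  by_cases h : ((Zz u v i i' c₁ h₁).filter fun z => t < (z.1 : ℕ)).Nonempty
  · right
    obtain ⟨z, hz, h1⟩ := Finset.exists_mem_eq_sup _ h (fun z : Fin n × Fin n => (z.2 : ℕ) + 1)
    rw [Finset.mem_filter] at hz
    exact ⟨z, hz.1, hz.2, h1⟩
  · left
    unfold Jz
    rw [Finset.not_nonempty_iff_eq_empty.1 h, Finset.sup_empty]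
    rfl

/-- **choice of `y`** -/
theorem exists_cov (huv : BruhatLE u v) (hi : i' ≤ i) (hC : C ⊆ SWs u i' j') (hc₁ : c₁ ∈ C)
    (hg : rk u i' j' + C.card = rk v i' j' + 1) (hh : i ≤ u h₁)
    (hcap : ∀ I, i ≤ I → I ≤ u h₁ → rk u I j' + C.card ≤ rk v I j')
    (hleft : ∀ w ∈ NWs u i' j', u w < i → w < c₁)
    (hlow : ∀ w, c₁ < w → w ≤ j' → i ≤ u w → u h₁ ≤ u w) :
    ∃ y, y < c₁ ∧ i' ≤ u y ∧ u y < i ∧ y ≤ j' ∧ Cov u v i y c₁ h₁ := by
  classical
  by_contra hcon
  push Not at hcon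
  have hc₁' := mem_SWs.1 (hC hc₁)
  -- every vertex of the strip is covered
  have hY : ∀ y, y ≤ j' → i' ≤ u y → u y < i → ∃ z ∈ Zz u v i i' c₁ h₁, y ≤ z.2 ∧ u y < z.1 := by
    intro y hy1 hy2 hy3
    have h1 := hcon y (hleft y (mem_NWs.2 ⟨hy1, hy2⟩) hy3) hy2 hy3 hy1
    unfold Cov at h1
    push Not at h1
    obtain ⟨i₀, j₀, h2, h3, h4, h5, h6, h7⟩ := h1
    exact ⟨(i₀, j₀), mem_Zz.2 ⟨h2, h4, hy2.trans_lt h5, h6, h7⟩, h3, h5⟩
  -- the top row
  obtain ⟨I, hiI, hIh, hItop, hIz⟩ : ∃ I : Fin n, i ≤ I ∧ I ≤ u h₁ ∧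
      (∀ z ∈ Zz u v i i' c₁ h₁, z.1 ≤ I) ∧
      (I = i ∨ ∃ z ∈ Zz u v i i' c₁ h₁, z.1 = I) := by
    by_cases h : (Zz u v i i' c₁ h₁).Nonempty
    · obtain ⟨z, hz, hmax⟩ := Finset.exists_max_image _ (fun z => z.1) h
      rcases le_total i z.1 with h1 | h1
      · exact ⟨z.1, h1, (mem_Zz.1 hz).2.2.2.1, fun z' hz' => hmax z' hz', Or.inr ⟨z, hz, rfl⟩⟩
      · exact ⟨i, le_rfl, hh, fun z' hz' => (hmax z' hz').trans h1, Or.inl rfl⟩
    · exact ⟨i, le_rfl, hh, fun z hz => absurd ⟨z, hz⟩ h, Or.inl rfl⟩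
  have hJle : ∀ t, Jz u v i i' c₁ h₁ t ≤ (j' : ℕ) + 1 := by
    intro t
    rcases Jz_cases (u := u) (v := v) (i := i) (i' := i') (c₁ := c₁) (h₁ := h₁) t with
      h1 | ⟨z, hz, -, h1⟩
    · rw [h1]
      exact Nat.zero_le _
    · rw [h1]
      have h2 := (mem_Zz.1 hz).2.1
      have h3 := hc₁'.1
      rw [Fin.lt_def] at h2
      rw [Fin.le_def] at h3
      omega
  -- downward induction
  have key : ∀ d : ℕ, d ≤ (I : ℕ) - (i' : ℕ) →
      C.card + rN u ((I : ℕ) - d) ((j' : ℕ) + 1) + rN v ((I : ℕ) - d) (Jz u v i i' c₁ h₁ ((I : ℕ) - d)) ≤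
      rN v ((I : ℕ) - d) ((j' : ℕ) + 1) + rN u ((I : ℕ) - d) (Jz u v i i' c₁ h₁ ((I : ℕ) - d)) := by
    intro d
    induction d with
    | zero =>
      intro _
      have h1 : Jz u v i i' c₁ h₁ (I : ℕ) = 0 := by
        rcases Jz_cases (u := u) (v := v) (i := i) (i' := i') (c₁ := c₁) (h₁ := h₁) (I : ℕ) with
          h1 | ⟨z, hz, h2, -⟩
        · exact h1
        · have h3 := hItop z hz
          rw [Fin.le_def] at h3
          omega
      rw [Nat.sub_zero, h1, rN_zero, rN_zero, rN_eq, rN_eq]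
      have := hcap I hiI hIh
      omega
    | succ d ih =>
      intro hd
      have hiI' : (i : ℕ) ≤ (I : ℕ) := hiI
      have hi'I : (i' : ℕ) ≤ (I : ℕ) := hi.trans hiI
      have h0 := ih (by omega)
      obtain ⟨t, ht⟩ : ∃ t, t = (I : ℕ) - (d + 1) := ⟨_, rfl⟩
      have ht1 : (I : ℕ) - d = t + 1 := by omega
      rw [← ht]
      rw [ht1] at h0
      apply row_step (hJle t)
      · -- no vertex of `u` in the row `t`
        intro c hc1 hc2 hct
        have hcj : c ≤ j' := by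
          rw [Fin.le_def]
          omega
        have hci' : i' ≤ u c := by
          rw [Fin.le_def]
          omega
        by_cases hci : u c < i
        · obtain ⟨z, hz, h2, h3⟩ := hY c hcj hci' hci
          have h4 := le_Jz (t := t) hz (by rw [← hct]; exact h3)
          rw [Fin.le_def] at h2
          omega
        · rw [not_lt] at hci
          have htI : t < (I : ℕ) := by omega
          rcases hIz with h2 | ⟨z, hz, h2⟩
          · rw [← h2, Fin.le_def] at hci
            omega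
          · rcases lt_trichotomy c c₁ with h3 | h3 | h3
            · have h4 := le_Jz (t := t) hz (by rw [h2]; exact htI)
              have h5 : z.2 < c := by
                rw [Fin.lt_def]
                omega
              have h6 := (mem_Zz.1 hz).2.2.2.2 c h5 h3 hci
              rw [h2, Fin.le_def] at h6
              omega
            · rw [h3] at hci'
              exact absurd hc₁'.2 (not_lt.2 hci')
            · have h4 := hlow c h3 hcj hci
              have h5 := hIh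
              rw [Fin.le_def] at h4 h5
              omega
      · -- the width changes only at a box of defect zero
        have h2 : rN v (t + 1) (Jz u v i i' c₁ h₁ t) + rN u (t + 1) (Jz u v i i' c₁ h₁ (t + 1)) ≤
            rN v (t + 1) (Jz u v i i' c₁ h₁ (t + 1)) + rN u (t + 1) (Jz u v i i' c₁ h₁ t) := by
          rcases Jz_cases (u := u) (v := v) (i := i) (i' := i') (c₁ := c₁) (h₁ := h₁) t with
            h1 | ⟨z, hz, h3, h1⟩
          · rw [h1, rN_zero, rN_zero]
            have h4 : rN u (t + 1) (Jz u v i i' c₁ h₁ (t + 1)) ≤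
                rN v (t + 1) (Jz u v i i' c₁ h₁ (t + 1)) := by
              rcases Jz_cases (u := u) (v := v) (i := i) (i' := i') (c₁ := c₁) (h₁ := h₁)
                (t + 1) with h5 | ⟨z, hz, h6, h5⟩
              · rw [h5, rN_zero, rN_zero]
              · have h7 := z.1.isLt
                have h8 := huv ⟨t + 1, by omega⟩ z.2
                rw [← rN_eq, ← rN_eq] at h8
                rw [h5]
                exact h8
            omega
          · by_cases h4 : t + 1 < (z.1 : ℕ)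
            · have h5 := le_Jz (u := u) (v := v) (i := i) (i' := i') (c₁ := c₁) (h₁ := h₁)
                (t := t + 1) hz h4
              have h6 : Jz u v i i' c₁ h₁ (t + 1) ≤ Jz u v i i' c₁ h₁ t := by
                unfold Jz
                apply Finset.sup_mono
                intro z' hz'
                rw [Finset.mem_filter] at hz' ⊢
                exact ⟨hz'.1, by omega⟩
              have h7 : Jz u v i i' c₁ h₁ (t + 1) = Jz u v i i' c₁ h₁ t := by omega
              rw [h7]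
            · have h5 : (z.1 : ℕ) = t + 1 := by omega
              have h6 := (mem_Zz.1 hz).1
              rw [← rN_eq, ← rN_eq, h5] at h6
              rw [h1, h6]
              have h7 : rN u (t + 1) (Jz u v i i' c₁ h₁ (t + 1)) ≤
                  rN v (t + 1) (Jz u v i i' c₁ h₁ (t + 1)) := by
                rcases Jz_cases (u := u) (v := v) (i := i) (i' := i') (c₁ := c₁) (h₁ := h₁)
                  (t + 1) with h8 | ⟨z', hz', h9, h8⟩
                · rw [h8, rN_zero, rN_zero]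
                · have h10 := z'.1.isLt
                  have h11 := huv ⟨t + 1, by omega⟩ z'.2
                  rw [← rN_eq, ← rN_eq] at h11
                  rw [h8]
                  exact h11
              omega
        omega
  have h1 := key ((I : ℕ) - (i' : ℕ)) le_rfl
  have hi'I : (i' : ℕ) ≤ (I : ℕ) := hi.trans hiI
  have h2 : (I : ℕ) - ((I : ℕ) - (i' : ℕ)) = (i' : ℕ) := by omega
  rw [h2, rN_eq, rN_eq] at h1
  have h3 : rN u (i' : ℕ) (Jz u v i i' c₁ h₁ (i' : ℕ)) ≤
      rN v (i' : ℕ) (Jz u v i i' c₁ h₁ (i' : ℕ)) := by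
    rcases Jz_cases (u := u) (v := v) (i := i) (i' := i') (c₁ := c₁) (h₁ := h₁) (i' : ℕ) with
      h8 | ⟨z', hz', h9, h8⟩
    · rw [h8, rN_zero, rN_zero]
    · have h11 := huv i' z'.2
      rw [← rN_eq, ← rN_eq] at h11
      rw [h8]
      exact h11
  omega

/-- the members with the first step `c₁ → h₁`, from the data of a box south-west of `(i,j)` -/
theorem same_first_core (huv : BruhatLE u v) (hC : C ⊆ SWs u i j) (hR : R ⊆ NEs u i j)
    (hI : Irr u v i j C R) (hc₁ : c₁ ∈ C) (hmin : ∀ c ∈ C, c₁ ≤ c) (hi : i' ≤ i)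
    (hC' : C ⊆ SWs u i' j') (hg' : rk u i' j' + C.card = rk v i' j' + 1) (hh : i ≤ u h₁)
    (hcap : ∀ I, i ≤ I → I ≤ u h₁ → rk u I j' + C.card ≤ rk v I j')
    (hleft : ∀ w ∈ NWs u i' j', u w < i → w < c₁)
    (hlow2 : ∀ w, c₁ < w → w ≤ j' → i ≤ u w → u h₁ ≤ u w) (hlow : LowC u v i j C R c₁)
    {ρ ρ' : Fin n → Fin n} (hL : Link u v i j C R ρ) (hL' : Link u v i j C R ρ')
    (e : ρ c₁ = h₁) (e' : ρ' c₁ = h₁) : mv (NWs u i j ∪ C) ρ = mv (NWs u i j ∪ C) ρ' := by
  obtain ⟨y, h1, h2, h3, -, h4⟩ := exists_cov huv hi hC' hc₁ hg' hh hcap hleft hlow2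
  exact same_first_of_cov huv hC hR hI hc₁ hmin h1 h3
    ((mem_SWs.1 (hC' hc₁)).2.trans_le h2) h4 hlow hL hL' e e'

/-- **the members with the same first step as a linking of south-west type** -/
theorem same_first (huv : BruhatLE u v) (hC : C ⊆ SWs u i j) (hR : R ⊆ NEs u i j)
    (hI : Irr u v i j C R) (hc₁ : c₁ ∈ C) (hmin : ∀ c ∈ C, c₁ ≤ c)
    (hlow : LowC u v i j C R c₁) {s : Fin n → Fin n} (hs : Link u v i j C R s)
    (hS : STy u v i j C s i' j') {ρ ρ' : Fin n → Fin n} (hL : Link u v i j C R ρ)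
    (hL' : Link u v i j C R ρ') (e : ρ c₁ = s c₁) (e' : ρ' c₁ = s c₁) :
    mv (NWs u i j ∪ C) ρ = mv (NWs u i j ∪ C) ρ' := by
  have hM := mt_of_link hs
  have hh := (h₁_facts hC hR hc₁ hM rfl).2
  exact same_first_core huv hC hR hI hc₁ hmin hS.hi hS.hC hS.hg hh
    (fun I h1 h2 => hS.cap hC hM (rk_of_link hs) hc₁ hmin h1 h2)
    (fun w hw hwi => hS.left' hc₁ hw hwi)
    (fun w h1 h2 h3 => hS.low2 hM hc₁ hmin h1 h2 h3) hlow hL hL' e e'

end Pool.Agent.H86.KL
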